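import Mathlib
import Pool.Agent.PudClass.Main
import Pool.Agent.PudClass.R
import Pool.Agent.PudClass.R8

set_option autoImplicit false

/-!
# The relativizing consequences of Q1 in Pudlák's list of conjectures
-/

namespace Pool.Agent.Results.MP_c2284b_lc.Classification

open Pool.Agent.Helper22 Pool.Agent.PudClass

/-- Relative to every oracle Q1 implies that some conjecture of `S` holds, if and only if `S`
contains one of the conjectures on p-optimal proof systems for NP, total search problems and
disjoint coNP-pairs, one of those on E ≠ NE, p-optimal and optimal proof systems for coNP and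
disjoint NP-pairs, and one of those on E ≠ NE and p-optimal proof systems for coNP and for NP. -/
theorem result (S : Set Conj) :
    (∀ X : Oracle, Q1 X → ∃ c ∈ S, Holds X c) ↔
      (Conj.sat ∈ S ∨ Conj.tfnp ∈ S ∨ Conj.disjCoNP ∈ S) ∧
      (Conj.tally ∈ S ∨ Conj.con ∈ S ∨ Conj.conN ∈ S ∨ Conj.disjNP ∈ S) ∧
      (Conj.tally ∈ S ∨ Conj.con ∈ S ∨ Conj.sat ∈ S) :=
  classification_of R1 R2 R3 R4 R5 R6 R7 R8 S

end Pool.Agent.Results.MP_c2284b_lc.Classification
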