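import Mathlib
import Pool.Prelude.Def_F_458e953d
import Pool.Agent.Helper22.OracleDefs
import Pool.Agent.Helper20.Cons.Defs
import Pool.Agent.RC.Final

set_option autoImplicit false

/-!
# NP ∩ coNP and nonuniform reductions relative to a random oracle
-/

namespace Pool.Agent.Results.MP_c2284b_lc.RandomCircuits

open MeasureTheory N68a2faeb N793a5b8e N487b59b3 Pool.Agent.Helper22
open Pool.Agent.Helper20.Cons (join)

/-- The distribution of a random oracle: independent fair coins for all words. -/
noncomputable def coin : Measure Oracle :=
  Measure.infinitePi fun _ : List Bool => (PMF.uniformOfFintype Bool).toMeasure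

/-- UP relative to the oracle `X`: the languages of NP relative to `X` which have a verifier with at
most one witness for every word. -/
def UPo (X : Oracle) : DecisionComplexityClass :=
  {L | ∃ (p : Polynomial ℕ) (M : OracleProc (List Bool × List Bool) Bool),
    (∀ x, L x = true ↔ Accepts M p X x) ∧
    ∀ x w w' : List Bool, w.length ≤ p.eval x.length → w'.length ≤ p.eval x.length →
      M.run X (x, w) = true → M.run X (x, w') = true → w = w'}

/-- `L` is in P/poly relative to the oracle `X`: a procedure `M` of polynomial time with the oracle
`X` decides `L` with an advice string `v n` of polynomial length for the words of length `n`. -/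
def PPoly (X : Oracle) (L : DecisionProblem) : Prop :=
  ∃ (M : OracleProc (List Bool × List Bool) Bool) (p : Polynomial ℕ) (v : ℕ → List Bool),
    (∀ n, (v n).length ≤ p.eval n) ∧ ∀ x : List Bool, M.run X (x, v x.length) = L x

/-- The same with longer advice strings: the binary logarithm of the length of `v n`, rounded down,
is at most `n ^ (1 / 6)` for all `n ≥ n₀`, and `M` decides `L` correctly for all words of length at
least `n₀`.  The time of `M` is polynomial in the length of the word and of the advice. -/
def SubExp (X : Oracle) (L : DecisionProblem) : Prop :=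
  ∃ (M : OracleProc (List Bool × List Bool) Bool) (v : ℕ → List Bool) (n₀ : ℕ),
    (∀ n, n₀ ≤ n → Nat.log 2 (v n).length ^ 6 ≤ n) ∧
    ∀ x : List Bool, n₀ ≤ x.length → M.run X (x, v x.length) = L x

/-- For every oracle `A` and almost every oracle `R`, relative to `X = join A R`: for no language `B`
of NP ∩ coNP are all languages of UP ∩ coNP decided by procedures of polynomial time with the
oracles `X` and `B` and advice strings of length at most `2 ^ (n ^ (1 / 6))`, let alone of
polynomial length. -/
theorem result (A : Oracle) : ∀ᵐ R ∂coin,
    ∀ B ∈ NPo (join A R) ∩ coNPo (join A R), ∃ L ∈ UPo (join A R) ∩ coNPo (join A R),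
      ¬ SubExp (join (join A R) B) L ∧ ¬ PPoly (join (join A R) B) L := by
  have h := Pool.Agent.RC.random_circuits A
  filter_upwards [h] with R hR B hB
  obtain ⟨L, hL, hn⟩ := hR B hB
  exact ⟨L, hL, hn, fun hp => hn (Pool.Agent.RC.subExp_of_pPoly hp)⟩

end Pool.Agent.Results.MP_c2284b_lc.RandomCircuits
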