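import Mathlib
import Pool.Prelude.Def_F_458e953d
import Pool.Agent.Helper22.OracleDefs
import Pool.Agent.Helper20.Cons.Defs
import Pool.Agent.ROP.Final

set_option autoImplicit false

/-!
# Disjoint NP-pairs and NP ∩ coNP relative to a random oracle
-/

namespace Pool.Agent.Results.MP_c2284b_lc.RandomPairs

open MeasureTheory N68a2faeb N793a5b8e N487b59b3 Pool.Agent.Helper22
open Pool.Agent.Helper20.Cons (join)

/-- The distribution of a random oracle: independent fair coins for all words. -/
noncomputable def coin : Measure Oracle :=
  Measure.infinitePi fun _ : List Bool => (PMF.uniformOfFintype Bool).toMeasure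

/-- UP relative to the oracle `X`: the languages of NP relative to `X` which have a verifier with at
most one witness for every word. -/
def UPo (X : Oracle) : DecisionComplexityClass :=
  {L | ∃ (p : Polynomial ℕ) (M : OracleProc (List Bool × List Bool) Bool),
    (∀ x, L x = true ↔ Accepts M p X x) ∧
    ∀ x w w' : List Bool, w.length ≤ p.eval x.length → w'.length ≤ p.eval x.length →
      M.run X (x, w) = true → M.run X (x, w') = true → w = w'}

/-- The proportion of the words of length `n` with the property `P`. -/
noncomputable def prob (n : ℕ) (P : List Bool → Prop) : ℝ := by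
  classical
  exact ((Finset.univ.filter fun w : List.Vector Bool n => P w.1).card : ℝ) / 2 ^ n

/-- The procedure `M` on the input `(x, w)`, with the oracles `X` and `C`, is smart for the pair
`(C, D)`: it asks the oracle `C` only words which are in `C` or in `D`. -/
def Smart (X : Oracle) (C D : DecisionProblem) (M : OracleProc (List Bool × List Bool) Bool)
    (a : List Bool × List Bool) : Prop :=
  ∀ n < (M.clock a).length, ∀ u : List Bool,
    M.query (a, M.answers (join X C) a n) = true :: u → C u = true ∨ D u = true

/-- `L` is reducible to the pair `(C, D)` by a randomized smart Turing reduction `M` with oracle `X`: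
for every `x`, with probability at least `2 / 3` over the random word `w`, `M` with the oracles `X`
and `C` decides correctly whether `x` is in `L`, and asks `C` only words of `C` or `D`. -/
def RandSmart (X : Oracle) (L C D : DecisionProblem) : Prop :=
  ∃ (M : OracleProc (List Bool × List Bool) Bool) (p : Polynomial ℕ), ∀ x : List Bool,
    2 / 3 ≤ prob (p.eval x.length) fun w =>
      M.run (join X C) (x, w) = L x ∧ Smart X C D M (x, w)

private theorem prob_eq : prob = Pool.Agent.ROP.prob := by
  funext n P
  unfold prob Pool.Agent.ROP.prob Pool.Agent.RO.pr
  rw [card_vector, Fintype.card_bool]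
  push_cast
  rfl

/-- For every oracle `A` and almost every oracle `R`, relative to `X = join A R` no disjoint pair
`(C, D)` of languages of NP is hard for UP ∩ coNP, not even under randomized smart Turing
reductions. -/
theorem result (A : Oracle) : ∀ᵐ R ∂coin,
    ∀ C ∈ NPo (join A R), ∀ D ∈ NPo (join A R), (∀ x, ¬ (C x = true ∧ D x = true)) →
      ∃ L ∈ UPo (join A R) ∩ coNPo (join A R), ¬ RandSmart (join A R) L C D := by
  have h := Pool.Agent.ROP.random_smart A
  unfold RandSmart
  rw [prob_eq]
  exact h

end Pool.Agent.Results.MP_c2284b_lc.RandomPairs
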