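import Mathlib
import Pool.Prelude.Def_F_458e953d
import Pool.Agent.Helper22.OracleDefs
import Pool.Agent.Helper20.Cons.Defs
import Pool.Agent.Helper20.Cons.G
import Pool.Agent.Helper20.Cons.NC
import Pool.Agent.Helper46.Cons.AllS
import Pool.Agent.Helper49.Cons.AccDefs
import Pool.Agent.Helper49.Cons.Alt
import Pool.Agent.Helper49.Cons.Trans
import Pool.Agent.Helper21.Off.Esy
import Pool.Agent.Helper21.Off.Gen
import Pool.Agent.Helper8.SipS.OffAll
import Pool.Agent.Helper8.SipS.SwitchDefs

set_option autoImplicit false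

namespace Pool.Agent.Results.MP_c2284b_lc.TallySwitch

open N68a2faeb N793a5b8e Pool.Agent.Helper22 Pool.Agent.Helper20.Cons Pool.Agent.Helper49.Cons
open Filter
open Pool.Agent.Helper8.Sip (PPoly PPoly_tally)
open Pool.Agent.Helper8.SipS (Conservative off_all)
open Pool.Agent.Helper46.Cons (exists_tally_all_S)
open Pool.Agent.Helper20.ConsG (accNC cls_accNC)

theorem nonempty_inter (X : Oracle) : (NPo X ∩ coNPo X).Nonempty := by
  refine ⟨fun _ => false, ⟨0, OracleProc.ofFP (fun _ => false) (FP.const _), fun x => ?_⟩,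
    ⟨0, OracleProc.ofFP (fun _ => true) (FP.const _), fun x => ?_⟩⟩
  · simp [Accepts, ofFP_run]
  · rw [compl_true]
    simp [Accepts, ofFP_run]

/-- Every oracle `A` can be joined with a conservative tally oracle `T`, as sparse as one likes,
such that NP ∩ coNP, and every other class of a given countable family, has a complete language
relative to `join A T`, even under reductions without oracle. It can be joined with a conservative
tally oracle `T`, with at most `n ^ (1 / r)` words of length at most `n`, such that NP ∩ coNP has no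
complete language relative to `join A T`, not even under reductions with oracle, if and only if NP
and coNP differ relative to `A`. -/
theorem result (A : Oracle) {ι κ : Type} [Countable ι] [Countable κ] (Φ : ι → Acc)
    (Ψ : κ → Oracle → List Bool → Option Bool) (hΨ : ∀ e, LocConst (Ψ e))
    (BB : Set (List Bool → Option Bool)) (hBB : BB.Countable) :
    (∀ s : ℕ → ℕ, Tendsto s atTop atTop → ∃ T : Oracle, Conservative A T s Φ Ψ BB ∧
      (∃ L ∈ NPo (join A T) ∩ coNPo (join A T), ∀ L' ∈ NPo (join A T) ∩ coNPo (join A T),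
        ManyOneReducible L' L) ∧
      ∀ i, (Cls (Φ i) (join A T)).Nonempty →
        ∃ L ∈ Cls (Φ i) (join A T), ∀ L' ∈ Cls (Φ i) (join A T), ManyOneReducible L' L) ∧
    (∀ (s : ℕ → ℕ) (r : ℕ), (∀ᶠ n in atTop, n ≤ s n ^ r) →
      ((∃ T : Oracle, Conservative A T s Φ Ψ BB ∧
        ¬ ∃ L ∈ NPo (join A T) ∩ coNPo (join A T), ∀ L' ∈ NPo (join A T) ∩ coNPo (join A T),
          ReducibleRel (join A T) L' L) ↔ NPo A ≠ coNPo A)) := by
  refine ⟨fun s hs => ?_, fun s r hs => ⟨?_, ?_⟩⟩
  · -- the on-switch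
    let Φ' : Unit ⊕ ι ⊕ (ℕ × Bool) → Acc := Sum.elim (fun _ => accNC)
      (Sum.elim Φ fun c => accAlt c.1 c.2)
    obtain ⟨T, hT, hsp, h0, h1, h2, h3⟩ := exists_tally_all_S A s hs Φ' Ψ hΨ BB hBB
    have hPH : ∀ k b k' b', AltP (join A T) k b ⊆ AltP (join A T) k' b' ↔
        AltP A k b ⊆ AltP A k' b' := by
      intro k b k' b'
      simp only [← cls_accAlt]
      exact ⟨h2 (.inr (.inr (k, b))) (.inr (.inr (k', b'))),
        h3 (.inr (.inr (k, b))) (.inr (.inr (k', b'))) (accAlt_syntactic k b)⟩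
    have hNC : ∃ L ∈ NPo (join A T) ∩ coNPo (join A T), ∀ L' ∈ NPo (join A T) ∩ coNPo (join A T),
        ManyOneReducible L' L := by
      have h := h0 (.inl ())
      change (Cls accNC (join A T)).Nonempty → ∃ L ∈ Cls accNC (join A T),
        ∀ L' ∈ Cls accNC (join A T), ManyOneReducible L' L at h
      rw [cls_accNC] at h
      exact h (nonempty_inter _)
    exact ⟨T, ⟨hT, hsp, h1, fun i j => h2 (.inr (.inl i)) (.inr (.inl j)),
      fun i j => h3 (.inr (.inl i)) (.inr (.inl j)), hPH, PPoly_tally hT⟩, hNC,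
      fun i => h0 (.inr (.inl i))⟩
  · -- necessity of NP ≠ coNP
    rintro ⟨T, hT, hno⟩ hA
    refine hno ?_
    obtain ⟨L, hL, hL'⟩ := complete_of_NPo_eq_coNPo hT.tally hA
    refine ⟨L, hL, fun L' h' => ?_⟩
    obtain ⟨f, hf, hfL⟩ := hL' L' h'
    exact ⟨OracleProc.ofFP f ((isPolyTime_iff _).1 hf), fun x => by rw [ofFP_run]; exact hfL x⟩
  · -- the off-switch
    intro hA
    obtain ⟨n0, hs⟩ := eventually_atTop.1 hs
    obtain ⟨Y, Z, hY, hZ, hE⟩ := Pool.Agent.Helper21.Off.esy A hA
    obtain ⟨T, hT, hsp, hno, hcons, hdown, hup⟩ := off_all hs A Y Z hY hZ hE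
      (ι := ι ⊕ (ℕ × Bool)) (Sum.elim Φ fun c => accAlt c.1 c.2) Ψ hΨ BB hBB
    have hPH : ∀ k b k' b', AltP (join A T) k b ⊆ AltP (join A T) k' b' ↔
        AltP A k b ⊆ AltP A k' b' := by
      intro k b k' b'
      simp only [← cls_accAlt]
      exact ⟨hdown (.inr (k, b)) (.inr (k', b')), hup (.inr (k, b)) (.inr (k', b'))
        (accAlt_syntactic k b)⟩
    exact ⟨T, ⟨hT, hsp, hcons, fun i j => hdown (.inl i) (.inl j),
      fun i j => hup (.inl i) (.inl j), hPH, PPoly_tally hT⟩, fun h => hno h⟩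

end Pool.Agent.Results.MP_c2284b_lc.TallySwitch
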